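import Mathlib
import Pool.Agent.H60.ColPart

open Pool.Agent.H60.ColPart Filter Topology in
/-- The explicit family of all sequences `(1, o₁, o₂, 2 o₃, 4 o₄, 8 o₅, …)` with every `o_j` odd is
infinite, and each member has gcd one and odd density exactly `1/2` for every `k ≥ 2`. -/
theorem Pool.Agent.Results.MP_4155d9_nt.Family.result :
    {a : ℕ → ℕ | a 0 = 1 ∧ Odd (a 1) ∧ ∀ j, ∃ o, Odd o ∧ a (j + 2) = 2 ^ j * o}.Infinite ∧
    ∀ a : ℕ → ℕ, a 0 = 1 → Odd (a 1) → (∀ j, ∃ o, Odd o ∧ a (j + 2) = 2 ^ j * o) →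
      (∀ i, 0 < a i) ∧ (∀ d : ℕ, (∀ i, d ∣ a i) → d = 1) ∧
      ∃ δ : ℕ → ℝ, (∀ k, 1 ≤ k → HasOddDensity a k (δ k)) ∧ (∀ k, 2 ≤ k → δ k = 1 / 2) ∧
        Tendsto δ atTop (𝓝 (1 / 2)) := by
  constructor
  · refine Set.infinite_of_injective_forall_mem
      (f := fun (c : ℕ) (i : ℕ) => if i = 1 then 2 * c + 1 else 2 ^ (i - 2)) ?_ ?_
    · intro c d h
      have := congrFun h 1
      simpa using this
    · intro c
      exact ⟨by simp, by simp, fun j => ⟨1, odd_one, by simp⟩⟩
  · intro a h0 h1 h2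
    have ha : ∀ i, 0 < a i := by
      intro i
      match i with
      | 0 => omega
      | 1 => exact h1.pos
      | j + 2 =>
        obtain ⟨o, ho, hao⟩ := h2 j
        have := ho.pos
        rw [hao]; positivity
    obtain ⟨δ₁, hδ₁⟩ := exists_density a ha 1 le_rfl
    refine ⟨ha, fun d hd => by simpa [h0] using hd 0,
      fun k => if k = 1 then δ₁ else 1 / 2, fun k hk => ?_, fun k hk => ?_, ?_⟩
    · by_cases h : k = 1
      · simpa [h] using hδ₁
      · simp only [if_neg h]
        exact family_density a h0 h1 h2 k (by omega)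
    · simp only [if_neg (show k ≠ 1 by omega)]
    · refine tendsto_const_nhds.congr' ?_
      filter_upwards [eventually_ge_atTop 2] with k hk
      simp only [if_neg (show k ≠ 1 by omega)]
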